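import Mathlib

/-! # Counting the zeros of the Kirchhoff polynomial at a 3-valent vertex

For a 3-valent vertex with edge variables `a, b, c` the Kirchhoff polynomial is
`f₀ (ab + ac + bc) + (f₂ + f₃) a + (f₁ + f₃) b + (f₁ + f₂) c + f` with
`f₀ f = f₁ f₂ + f₁ f₃ + f₂ f₃`. This file counts its zeros over `F_p`. -/

namespace MP06b

open Finset

section
variable {p : ℕ} [hp : Fact p.Prime]

theorem sum_lin (c d : ZMod p) (hc : c ≠ 0) :
    (∑ z : ZMod p, if c * z + d = 0 then 1 else 0 : ℕ) = 1 := by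
  have : ∀ z : ZMod p, (c * z + d = 0) ↔ z = -d / c := by
    intro z
    rw [eq_div_iff hc]
    constructor
    · intro h
      linear_combination h
    · intro h
      linear_combination h
  simp only [this]
  simp

theorem sum_lin' (c d : ZMod p) (hc : c ≠ 0) (P : ZMod p → Prop) [DecidablePred P]
    (hP : ∀ z, P z ↔ c * z + d = 0) :
    (∑ z : ZMod p, if P z then 1 else 0 : ℕ) = 1 := by
  simp only [hP]
  exact sum_lin c d hc

theorem sum_shift {M : Type*} [AddCommMonoid M] (c d : ZMod p) (hc : c ≠ 0) (F : ZMod p → M) :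
    ∑ x : ZMod p, F (c * x + d) = ∑ x : ZMod p, F x := by
  refine Fintype.sum_bijective (fun x : ZMod p => c * x + d) ?_ _ _ (fun _ => rfl)
  rw [Fintype.bijective_iff_injective_and_card]
  refine ⟨fun x y h => ?_, rfl⟩
  have h' : c * x = c * y := by simpa using h
  exact mul_left_cancel₀ hc h'

/-- the number of zeros of `xy + xz + yz` -/
theorem count_cone :
    (∑ x : ZMod p, ∑ y : ZMod p, ∑ z : ZMod p,
      if x * y + x * z + y * z = 0 then 1 else 0 : ℕ) = p ^ 2 := by
  have hp0 := hp.out.pos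
  have h1 : ∀ x y : ZMod p, (∑ z : ZMod p, if x * y + x * z + y * z = 0 then 1 else 0 : ℕ) =
      if y = -x then (if x = 0 then p else 0) else 1 := by
    intro x y
    by_cases hxy : y = -x
    · rw [if_pos hxy]
      subst hxy
      by_cases hx : x = 0
      · subst hx
        simp [ZMod.card]
      · rw [if_neg hx]
        apply Finset.sum_eq_zero
        intro z _
        rw [if_neg]
        intro h
        apply hx
        have : x * x = 0 := by linear_combination -h
        exact mul_self_eq_zero.mp this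
    · rw [if_neg hxy]
      refine sum_lin' (x + y) (x * y) ?_ _ (fun z => ?_)
      · intro h
        exact hxy (by linear_combination h)
      · constructor
        · intro h
          linear_combination h
        · intro h
          linear_combination h
  have h2 : ∀ x : ZMod p, (∑ y : ZMod p, if y = -x then (if x = 0 then p else 0) else 1 : ℕ) =
      (p - 1) + if x = 0 then p else 0 := by
    intro x
    rw [Finset.sum_ite, Finset.filter_eq' univ (-x), if_pos (Finset.mem_univ _),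
      Finset.filter_ne' univ (-x)]
    simp [ZMod.card]
    ring
  simp only [h1, h2]
  rw [Finset.sum_add_distrib]
  simp [ZMod.card]
  have : p * (p - 1) + p = p ^ 2 := by
    obtain ⟨k, rfl⟩ : ∃ k, p = k + 1 := ⟨p - 1, by omega⟩
    simp
    ring
  exact this

/-- number of zeros of a linear form plus constant -/
theorem count_lin (c₁ c₂ c₃ d : ZMod p) (h : c₁ ≠ 0 ∨ c₂ ≠ 0 ∨ c₃ ≠ 0) :
    (∑ x : ZMod p, ∑ y : ZMod p, ∑ z : ZMod p,
      if c₁ * x + c₂ * y + c₃ * z + d = 0 then 1 else 0 : ℕ) = p ^ 2 := by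
  rcases h with h | h | h
  · rw [Finset.sum_comm]
    have h1 : ∀ y : ZMod p, (∑ x : ZMod p, ∑ z : ZMod p,
        if c₁ * x + c₂ * y + c₃ * z + d = 0 then 1 else 0 : ℕ) = p := by
      intro y
      rw [Finset.sum_comm]
      have h2 : ∀ z : ZMod p, (∑ x : ZMod p,
          if c₁ * x + c₂ * y + c₃ * z + d = 0 then 1 else 0 : ℕ) = 1 := by
        intro z
        refine sum_lin' c₁ (c₂ * y + c₃ * z + d) h _ (fun x => ?_)
        rw [← add_assoc, ← add_assoc]
      simp only [h2]
      simp [ZMod.card]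
    simp only [h1]
    simp [ZMod.card, sq]
  · have h1 : ∀ x : ZMod p, (∑ y : ZMod p, ∑ z : ZMod p,
        if c₁ * x + c₂ * y + c₃ * z + d = 0 then 1 else 0 : ℕ) = p := by
      intro x
      rw [Finset.sum_comm]
      have h2 : ∀ z : ZMod p, (∑ y : ZMod p,
          if c₁ * x + c₂ * y + c₃ * z + d = 0 then 1 else 0 : ℕ) = 1 := by
        intro z
        refine sum_lin' c₂ (c₁ * x + c₃ * z + d) h _ (fun y => ?_)
        constructor
        · intro h
          linear_combination h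
        · intro h
          linear_combination h
      simp only [h2]
      simp [ZMod.card]
    simp only [h1]
    simp [ZMod.card, sq]
  · have h1 : ∀ x y : ZMod p, (∑ z : ZMod p,
        if c₁ * x + c₂ * y + c₃ * z + d = 0 then 1 else 0 : ℕ) = 1 := by
      intro x y
      refine sum_lin' c₃ (c₁ * x + c₂ * y + d) h _ (fun z => ?_)
      constructor
      · intro h
        linear_combination h
      · intro h
        linear_combination h
    simp only [h1]
    simp [ZMod.card, sq]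

/-- the number of zeros of the Kirchhoff polynomial in the three variables of a 3-valent vertex -/
theorem count_conic (f₀ f₁ f₂ f₃ f : ZMod p) (h : f₀ * f = f₁ * f₂ + f₁ * f₃ + f₂ * f₃) :
    (∑ x : ZMod p, ∑ y : ZMod p, ∑ z : ZMod p,
      if f₀ * (x * y + x * z + y * z) + (f₂ + f₃) * x + (f₁ + f₃) * y + (f₁ + f₂) * z + f = 0
      then 1 else 0 : ℕ) =
    if f₀ = 0 ∧ f₁ = 0 ∧ f₂ = 0 ∧ f₃ = 0 then (if f = 0 then p ^ 3 else 0) else p ^ 2 := by
  by_cases h0 : f₀ = 0
  · subst h0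
    by_cases hb : f₁ = 0 ∧ f₂ = 0 ∧ f₃ = 0
    · obtain ⟨rfl, rfl, rfl⟩ := hb
      by_cases hf : f = 0
      · simp [hf, ZMod.card]
        ring
      · simp [hf]
    · rw [if_neg (by tauto)]
      have hc : f₂ + f₃ ≠ 0 ∨ f₁ + f₃ ≠ 0 ∨ f₁ + f₂ ≠ 0 := by
        by_contra hcon
        push Not at hcon
        obtain ⟨h1, h2, h3⟩ := hcon
        apply hb
        have e3 : f₃ = -f₂ := by linear_combination h1
        have e1 : f₁ = -f₂ := by linear_combination h3
        have e2 : f₂ * f₂ = 0 := by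
          have h' : (0 : ZMod p) = f₁ * f₂ + f₁ * f₃ + f₂ * f₃ := by rw [← h]; ring
          rw [e1, e3] at h'
          linear_combination h'
        have e4 : f₂ = 0 := mul_self_eq_zero.mp e2
        refine ⟨?_, e4, ?_⟩
        · rw [e1, e4, neg_zero]
        · rw [e3, e4, neg_zero]
      rw [← count_lin (f₂ + f₃) (f₁ + f₃) (f₁ + f₂) f hc]
      simp
  · rw [if_neg (by tauto)]
    have key : ∀ x y z : ZMod p,
        (f₀ * (x * y + x * z + y * z) + (f₂ + f₃) * x + (f₁ + f₃) * y + (f₁ + f₂) * z + f = 0) ↔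
        ((f₀ * x + f₁) * (f₀ * y + f₂) + (f₀ * x + f₁) * (f₀ * z + f₃)
          + (f₀ * y + f₂) * (f₀ * z + f₃) = 0) := by
      intro x y z
      have : (f₀ * x + f₁) * (f₀ * y + f₂) + (f₀ * x + f₁) * (f₀ * z + f₃)
          + (f₀ * y + f₂) * (f₀ * z + f₃) = f₀ *
          (f₀ * (x * y + x * z + y * z) + (f₂ + f₃) * x + (f₁ + f₃) * y + (f₁ + f₂) * z + f) := by
        linear_combination -h
      rw [this, mul_eq_zero]
      tauto
    simp only [key]
    rw [sum_shift f₀ f₁ h0 (fun x => ∑ y : ZMod p, ∑ z : ZMod p,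
      if x * (f₀ * y + f₂) + x * (f₀ * z + f₃) + (f₀ * y + f₂) * (f₀ * z + f₃) = 0
      then 1 else 0)]
    rw [← count_cone (p := p)]
    refine Finset.sum_congr rfl fun x _ => ?_
    rw [sum_shift f₀ f₂ h0 (fun y => ∑ z : ZMod p,
      if x * y + x * (f₀ * z + f₃) + y * (f₀ * z + f₃) = 0 then 1 else 0)]
    refine Finset.sum_congr rfl fun y _ => ?_
    rw [sum_shift f₀ f₃ h0 (fun z => if x * y + x * z + y * z = 0 then 1 else 0)]

end

section
variable {p : ℕ} [hp : Fact p.Prime] {X : Type*} [Fintype X]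

open Classical in
/-- the points where `f₀ = f₁ = f₂ = f₃ = 0` -/
noncomputable def badSet (f₀ f₁ f₂ f₃ : X → ZMod p) : Finset X :=
  univ.filter fun x => f₀ x = 0 ∧ f₁ x = 0 ∧ f₂ x = 0 ∧ f₃ x = 0

open Classical in
/-- the number of zeros of a family of such polynomials -/
noncomputable def zeroCount (f₀ f₁ f₂ f₃ f : X → ZMod p) : ℕ :=
  ∑ t : X, ∑ x : ZMod p, ∑ y : ZMod p, ∑ z : ZMod p,
    if f₀ t * (x * y + x * z + y * z) + (f₂ t + f₃ t) * x + (f₁ t + f₃ t) * y
      + (f₁ t + f₂ t) * z + f t = 0 then 1 else 0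

open Classical in
theorem zeroCount_eq (f₀ f₁ f₂ f₃ f : X → ZMod p)
    (h : ∀ t, f₀ t * f t = f₁ t * f₂ t + f₁ t * f₃ t + f₂ t * f₃ t) :
    zeroCount f₀ f₁ f₂ f₃ f =
      p ^ 2 * (Fintype.card X - (badSet f₀ f₁ f₂ f₃).card) +
      p ^ 3 * ((badSet f₀ f₁ f₂ f₃).filter fun t => f t = 0).card := by
  unfold zeroCount
  have h1 : ∀ t, (∑ x : ZMod p, ∑ y : ZMod p, ∑ z : ZMod p,
      if f₀ t * (x * y + x * z + y * z) + (f₂ t + f₃ t) * x + (f₁ t + f₃ t) * y
      + (f₁ t + f₂ t) * z + f t = 0 then 1 else 0 : ℕ) =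
      (if t ∉ badSet f₀ f₁ f₂ f₃ then p ^ 2 else 0) +
      (if t ∈ (badSet f₀ f₁ f₂ f₃).filter (fun t => f t = 0) then p ^ 3 else 0) := by
    intro t
    rw [count_conic (f₀ t) (f₁ t) (f₂ t) (f₃ t) (f t) (h t)]
    unfold badSet
    simp only [Finset.mem_filter, Finset.mem_univ, true_and]
    by_cases hb : f₀ t = 0 ∧ f₁ t = 0 ∧ f₂ t = 0 ∧ f₃ t = 0
    · by_cases hf : f t = 0
      · simp [hb, hf]
      · simp [hb, hf]
    · simp [hb]
  simp only [h1]
  rw [Finset.sum_add_distrib, ← Finset.sum_filter, ← Finset.sum_filter, Finset.sum_const,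
    Finset.sum_const]
  have h2 : (univ.filter fun t => t ∉ badSet f₀ f₁ f₂ f₃).card =
      Fintype.card X - (badSet f₀ f₁ f₂ f₃).card := by
    rw [← Finset.card_compl]
    congr 1
    ext t
    simp
  have h3 : (univ.filter fun t => t ∈ (badSet f₀ f₁ f₂ f₃).filter (fun t => f t = 0)) =
      (badSet f₀ f₁ f₂ f₃).filter (fun t => f t = 0) := by
    ext t
    simp
  rw [h2, h3]
  simp [mul_comm]

/-- the zero count is divisible by `p²` -/
theorem sq_dvd_zeroCount (f₀ f₁ f₂ f₃ f : X → ZMod p)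
    (h : ∀ t, f₀ t * f t = f₁ t * f₂ t + f₁ t * f₃ t + f₂ t * f₃ t) :
    p ^ 2 ∣ zeroCount f₀ f₁ f₂ f₃ f := by
  rw [zeroCount_eq f₀ f₁ f₂ f₃ f h]
  exact Dvd.dvd.add (Dvd.intro _ rfl) (Dvd.dvd.mul_right ⟨p, by ring⟩ _)

/-- the zero count divided by `p²` is minus the number of bad points mod `p` -/
theorem zeroCount_div (f₀ f₁ f₂ f₃ f : X → ZMod p)
    (h : ∀ t, f₀ t * f t = f₁ t * f₂ t + f₁ t * f₃ t + f₂ t * f₃ t)
    (hX : p ∣ Fintype.card X) :
    ((zeroCount f₀ f₁ f₂ f₃ f / p ^ 2 : ℕ) : ZMod p) = -((badSet f₀ f₁ f₂ f₃).card : ZMod p) := by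
  have hp0 : 0 < p := hp.out.pos
  rw [zeroCount_eq f₀ f₁ f₂ f₃ f h]
  have e : p ^ 2 * (Fintype.card X - (badSet f₀ f₁ f₂ f₃).card) +
      p ^ 3 * ((badSet f₀ f₁ f₂ f₃).filter fun t => f t = 0).card =
      p ^ 2 * ((Fintype.card X - (badSet f₀ f₁ f₂ f₃).card) +
      p * ((badSet f₀ f₁ f₂ f₃).filter fun t => f t = 0).card) := by ring
  rw [e, Nat.mul_div_cancel_left _ (by positivity)]
  have hle : (badSet f₀ f₁ f₂ f₃).card ≤ Fintype.card X := Finset.card_le_univ _
  have h0 : ((Fintype.card X : ℕ) : ZMod p) = 0 := (ZMod.natCast_eq_zero_iff _ _).mpr hX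
  push_cast [Nat.cast_sub hle]
  rw [h0]
  simp

/-- the number of bad points mod `p` from three numbers of common zeros of two functions -/
theorem badSet_card (f₀ f₁ f₂ f₃ f : X → ZMod p)
    (h : ∀ t, f₀ t * f t = f₁ t * f₂ t + f₁ t * f₃ t + f₂ t * f₃ t) :
    (badSet f₀ f₁ f₂ f₃).card + (univ.filter fun t => f₀ t = 0 ∧ f₃ t = 0).card =
      (univ.filter fun t => f₀ t = 0 ∧ f₂ t + f₃ t = 0).card +
      (univ.filter fun t => f₀ t = 0 ∧ f₁ t + f₃ t = 0).card := by
  classical
  have hA : (univ.filter fun t => f₀ t = 0 ∧ f₂ t + f₃ t = 0) =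
      (univ.filter fun t => f₀ t = 0 ∧ f₂ t = 0 ∧ f₃ t = 0) := by
    ext t
    simp only [Finset.mem_filter, Finset.mem_univ, true_and]
    constructor
    · rintro ⟨h0, h1⟩
      have e : f₃ t = -f₂ t := by linear_combination h1
      have h' := h t
      rw [h0, e] at h'
      have e2 : f₂ t * f₂ t = 0 := by linear_combination h'
      have e4 := mul_self_eq_zero.mp e2
      exact ⟨h0, e4, by rw [e, e4, neg_zero]⟩
    · rintro ⟨h0, h1, h2⟩
      exact ⟨h0, by rw [h1, h2, add_zero]⟩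
  have hB : (univ.filter fun t => f₀ t = 0 ∧ f₁ t + f₃ t = 0) =
      (univ.filter fun t => f₀ t = 0 ∧ f₁ t = 0 ∧ f₃ t = 0) := by
    ext t
    simp only [Finset.mem_filter, Finset.mem_univ, true_and]
    constructor
    · rintro ⟨h0, h1⟩
      have e : f₃ t = -f₁ t := by linear_combination h1
      have h' := h t
      rw [h0, e] at h'
      have e2 : f₁ t * f₁ t = 0 := by linear_combination h'
      have e4 := mul_self_eq_zero.mp e2
      exact ⟨h0, e4, by rw [e, e4, neg_zero]⟩
    · rintro ⟨h0, h1, h2⟩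
      exact ⟨h0, by rw [h1, h2, add_zero]⟩
  rw [hA, hB, ← Finset.card_union_add_card_inter
    (univ.filter fun t => f₀ t = 0 ∧ f₂ t = 0 ∧ f₃ t = 0)
    (univ.filter fun t => f₀ t = 0 ∧ f₁ t = 0 ∧ f₃ t = 0)]
  have hU : (univ.filter fun t => f₀ t = 0 ∧ f₂ t = 0 ∧ f₃ t = 0) ∪
      (univ.filter fun t => f₀ t = 0 ∧ f₁ t = 0 ∧ f₃ t = 0) =
      univ.filter fun t => f₀ t = 0 ∧ f₃ t = 0 := by
    ext t
    simp only [Finset.mem_filter, Finset.mem_univ, true_and, Finset.mem_union]
    constructor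
    · rintro (⟨a, b, c⟩ | ⟨a, b, c⟩)
      · exact ⟨a, c⟩
      · exact ⟨a, c⟩
    · rintro ⟨a, c⟩
      have h' := h t
      rw [a, c] at h'
      have e2 : f₁ t * f₂ t = 0 := by linear_combination -h'
      rcases mul_eq_zero.mp e2 with h1 | h1
      · exact Or.inr ⟨a, h1, c⟩
      · exact Or.inl ⟨a, h1, c⟩
  have hI : (univ.filter fun t => f₀ t = 0 ∧ f₂ t = 0 ∧ f₃ t = 0) ∩
      (univ.filter fun t => f₀ t = 0 ∧ f₁ t = 0 ∧ f₃ t = 0) =
      badSet f₀ f₁ f₂ f₃ := by
    ext t
    unfold badSet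
    simp only [Finset.mem_filter, Finset.mem_univ, true_and, Finset.mem_inter]
    tauto
  rw [hU, hI]
  ring

/-- if the zeros of `A` and the zeros of `A s + B` have numbers divisible by `p²`, then the number
of common zeros of `A` and `B` is divisible by `p` -/
theorem dvd_common_zeros (A B : X → ZMod p)
    (hX : p ^ 2 ∣ Fintype.card X)
    (hA : p ^ 2 ∣ (univ.filter fun t => A t = 0).card)
    (hAB : p ^ 2 ∣ ∑ t : X, ∑ s : ZMod p, if A t * s + B t = 0 then 1 else 0) :
    p ∣ (univ.filter fun t => A t = 0 ∧ B t = 0).card := by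
  classical
  have hp0 : 0 < p := hp.out.pos
  have h1 : ∀ t, (∑ s : ZMod p, if A t * s + B t = 0 then 1 else 0 : ℕ) =
      (if A t ≠ 0 then 1 else 0) + p * (if A t = 0 ∧ B t = 0 then 1 else 0) := by
    intro t
    by_cases ha : A t = 0
    · by_cases hb : B t = 0
      · simp [ha, hb, ZMod.card]
      · simp [ha, hb]
    · rw [sum_lin _ _ ha]
      simp [ha]
  simp only [h1] at hAB
  rw [Finset.sum_add_distrib, ← Finset.mul_sum, ← Finset.card_filter, ← Finset.card_filter] at hAB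
  have h2 : (univ.filter fun t => A t ≠ 0).card + (univ.filter fun t => A t = 0).card =
      Fintype.card X := by
    rw [← Finset.card_univ, ← Finset.card_filter_add_card_filter_not (s := (univ : Finset X))
      (fun t => A t ≠ 0)]
    simp
  have h3 : p ^ 2 ∣ (univ.filter fun t => A t ≠ 0).card :=
    (Nat.dvd_add_left hA).mp (h2 ▸ hX)
  have h4 : p ^ 2 ∣ p * (univ.filter fun t => A t = 0 ∧ B t = 0).card :=
    (Nat.dvd_add_right h3).mp hAB
  rw [sq] at h4
  exact Nat.dvd_of_mul_dvd_mul_left hp0 h4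

end

end MP06b
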