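import Mathlib

/-! # Sums of `(p-1)`-st powers of polynomials over `F_p`

If `F` is an integer polynomial in `m` variables of total degree at most `m`, then
`∑_{a ∈ F_p^m} F(a)^(p-1) = (-1)^m T(F)` in `F_p`, where `T(F)` is the coefficient of
`∏ x_i^(p-1)` in `F^(p-1)`. -/

namespace MP06b

open Finset MvPolynomial

/-- the coefficient of `∏ x_i^(p-1)` in `F^(p-1)` -/
noncomputable def topCoeff {σ : Type*} [Fintype σ] (p : ℕ) (F : MvPolynomial σ ℤ) : ℤ :=
  MvPolynomial.coeff (Finsupp.equivFunOnFinite.symm fun _ => p - 1) (F ^ (p - 1))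

theorem sum_pow_zmod (p : ℕ) [hp : Fact p.Prime] (k : ℕ) :
    ∑ x : ZMod p, x ^ k = if 0 < k ∧ (p - 1) ∣ k then -1 else 0 := by
  rcases Nat.eq_zero_or_pos k with rfl | hk
  · simp
  · have h := FiniteField.sum_pow_units (ZMod p) k
    have hz : ∑ x : ZMod p, x ^ k = ∑ x : (ZMod p)ˣ, (x : ZMod p) ^ k := by
      rw [← Finset.sum_erase_add _ _ (Finset.mem_univ (0 : ZMod p)), zero_pow (by omega), add_zero]
      symm
      refine Finset.sum_bij (fun (x : (ZMod p)ˣ) _ => (x : ZMod p)) ?_ ?_ ?_ ?_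
      · intro x _
        simp
      · intro x _ y _ hxy
        exact Units.ext hxy
      · intro y hy
        have hy0 : y ≠ 0 := by simpa using hy
        exact ⟨Units.mk0 y hy0, Finset.mem_univ _, rfl⟩
      · intro x _
        rfl
    rw [hz, h, ZMod.card]
    simp [hk]

theorem sum_prod_pow {σ : Type*} [Fintype σ] [DecidableEq σ] (p : ℕ) [hp : Fact p.Prime]
    (d : σ → ℕ) :
    ∑ a : σ → ZMod p, ∏ i, a i ^ d i = ∏ i, ∑ x : ZMod p, x ^ d i := by
  rw [Finset.prod_univ_sum]
  simp [Fintype.piFinset_univ]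

/-- the sum of a monomial of total degree at most `m (p-1)` over `F_p^m` -/
theorem sum_monomial {σ : Type*} [Fintype σ] [DecidableEq σ] (p : ℕ) [hp : Fact p.Prime]
    (d : σ →₀ ℕ) (hd : (∑ i, d i) ≤ Fintype.card σ * (p - 1)) :
    ∑ a : σ → ZMod p, ∏ i, a i ^ d i =
      if d = Finsupp.equivFunOnFinite.symm (fun _ => p - 1) then (-1) ^ Fintype.card σ else 0 := by
  have hp1 : 0 < p - 1 := by have := hp.out.two_le; omega
  rw [sum_prod_pow]
  split_ifs with h
  · subst h
    have : ∀ i : σ, ∑ x : ZMod p, x ^ ((Finsupp.equivFunOnFinite.symm (fun _ : σ => p - 1)) i)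
        = -1 := by
      intro i
      rw [sum_pow_zmod]
      simp [hp1]
    rw [Finset.prod_congr rfl (fun i _ => this i)]
    simp
  · by_contra hne
    have hall : ∀ i, ∑ x : ZMod p, x ^ d i ≠ 0 := fun i => by
      intro h0
      exact hne (Finset.prod_eq_zero (Finset.mem_univ i) h0)
    have hge : ∀ i, p - 1 ≤ d i := by
      intro i
      have := hall i
      rw [sum_pow_zmod] at this
      split_ifs at this with hc
      · exact Nat.le_of_dvd hc.1 hc.2
      · exact absurd rfl this
    apply h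
    ext i
    simp only [Finsupp.equivFunOnFinite_symm_apply_apply]
    by_contra hi
    have hlt : p - 1 < d i := lt_of_le_of_ne (hge i) (Ne.symm hi)
    have : Fintype.card σ * (p - 1) < ∑ i, d i := by
      calc Fintype.card σ * (p - 1) = ∑ _i : σ, (p - 1) := by simp
        _ < ∑ i, d i := Finset.sum_lt_sum (fun j _ => hge j) ⟨i, Finset.mem_univ _, hlt⟩
    omega

/-- `∑_{a ∈ F_p^m} F(a)^(p-1) = (-1)^m T(F)` if `F` has total degree at most `m` -/
theorem sum_pow_eq_topCoeff {σ : Type*} [Fintype σ] [DecidableEq σ] (p : ℕ) [hp : Fact p.Prime]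
    (F : MvPolynomial σ ℤ) (hF : F.totalDegree ≤ Fintype.card σ) :
    ∑ a : σ → ZMod p, (MvPolynomial.eval₂ (Int.castRingHom (ZMod p)) a F) ^ (p - 1) =
      (-1) ^ Fintype.card σ * (topCoeff p F : ZMod p) := by
  have hdeg : (F ^ (p - 1)).totalDegree ≤ Fintype.card σ * (p - 1) := by
    calc (F ^ (p - 1)).totalDegree ≤ (p - 1) * F.totalDegree := MvPolynomial.totalDegree_pow _ _
      _ ≤ (p - 1) * Fintype.card σ := Nat.mul_le_mul_left _ hF
      _ = _ := Nat.mul_comm _ _
  have h1 : ∀ a : σ → ZMod p, (MvPolynomial.eval₂ (Int.castRingHom (ZMod p)) a F) ^ (p - 1) =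
      ∑ d ∈ (F ^ (p - 1)).support, (((F ^ (p - 1)).coeff d : ℤ) : ZMod p) * ∏ i, a i ^ d i := by
    intro a
    rw [← MvPolynomial.eval₂_pow, MvPolynomial.eval₂_eq']
    simp
  rw [Finset.sum_congr rfl (fun a _ => h1 a), Finset.sum_comm]
  have h2 : ∀ d ∈ (F ^ (p - 1)).support,
      ∑ a : σ → ZMod p, (((F ^ (p - 1)).coeff d : ℤ) : ZMod p) * ∏ i, a i ^ d i =
      if d = Finsupp.equivFunOnFinite.symm (fun _ => p - 1) then
        (((F ^ (p - 1)).coeff d : ℤ) : ZMod p) * (-1) ^ Fintype.card σ else 0 := by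
    intro d hd
    rw [← Finset.mul_sum, sum_monomial p d]
    · split_ifs <;> simp
    · have := MvPolynomial.le_totalDegree hd
      have h3 : (∑ i, d i) = d.sum fun _ e => e := by
        rw [Finsupp.sum_fintype]
        simp
      omega
  rw [Finset.sum_congr rfl h2, Finset.sum_ite_eq']
  unfold topCoeff
  split_ifs with hs
  · ring
  · rw [MvPolynomial.notMem_support_iff] at hs
    rw [hs]
    simp

/-- Fermat: the indicator of zero -/
theorem one_sub_pow_zmod (p : ℕ) [hp : Fact p.Prime] (x : ZMod p) :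
    1 - x ^ (p - 1) = if x = 0 then 1 else 0 := by
  have hp1 : p - 1 ≠ 0 := by have := hp.out.two_le; omega
  split_ifs with h
  · subst h
    rw [zero_pow hp1, sub_zero]
  · rw [ZMod.pow_card_sub_one_eq_one h, sub_self]

/-- a polynomial of total degree less than the number of variables: the sum of the `(p-1)`-st
powers vanishes -/
theorem sum_pow_eq_zero {σ : Type*} [Fintype σ] [DecidableEq σ] (p : ℕ) [hp : Fact p.Prime]
    (F : MvPolynomial σ ℤ) (hF : F.totalDegree < Fintype.card σ) :
    ∑ a : σ → ZMod p, (MvPolynomial.eval₂ (Int.castRingHom (ZMod p)) a F) ^ (p - 1) = 0 := by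
  have hp1 : 0 < p - 1 := by have := hp.out.two_le; omega
  rw [sum_pow_eq_topCoeff p F hF.le]
  have : topCoeff p F = 0 := by
    unfold topCoeff
    apply MvPolynomial.coeff_eq_zero_of_totalDegree_lt
    have h3 : (∑ i ∈ (Finsupp.equivFunOnFinite.symm (fun _ : σ => p - 1)).support,
        (Finsupp.equivFunOnFinite.symm (fun _ : σ => p - 1)) i) = Fintype.card σ * (p - 1) := by
      have hsup : (Finsupp.equivFunOnFinite.symm (fun _ : σ => p - 1)).support = Finset.univ := by
        ext i
        simp; omega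
      rw [hsup]
      simp
    rw [h3]
    calc (F ^ (p - 1)).totalDegree ≤ (p - 1) * F.totalDegree := MvPolynomial.totalDegree_pow _ _
      _ < (p - 1) * Fintype.card σ := Nat.mul_lt_mul_of_pos_left hF hp1
      _ = _ := Nat.mul_comm _ _
  rw [this]
  simp

/-- the number of common zeros of two polynomials, both of total degree less than the number of
variables and with product of total degree at most this number -/
theorem card_common_zeros {σ : Type*} [Fintype σ] [DecidableEq σ] (p : ℕ) [hp : Fact p.Prime]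
    (F G : MvPolynomial σ ℤ) (hF : F.totalDegree < Fintype.card σ)
    (hG : G.totalDegree < Fintype.card σ) (hFG : (F * G).totalDegree ≤ Fintype.card σ)
    (hσ : 0 < Fintype.card σ) :
    ((Finset.univ.filter fun a : σ → ZMod p =>
        MvPolynomial.eval₂ (Int.castRingHom (ZMod p)) a F = 0 ∧
        MvPolynomial.eval₂ (Int.castRingHom (ZMod p)) a G = 0).card : ZMod p) =
      (-1) ^ Fintype.card σ * (topCoeff p (F * G) : ZMod p) := by
  have hcard : (((Finset.univ.filter fun a : σ → ZMod p =>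
        MvPolynomial.eval₂ (Int.castRingHom (ZMod p)) a F = 0 ∧
        MvPolynomial.eval₂ (Int.castRingHom (ZMod p)) a G = 0).card : ℕ) : ZMod p) =
      ∑ a : σ → ZMod p,
        (1 - (MvPolynomial.eval₂ (Int.castRingHom (ZMod p)) a F) ^ (p - 1)) *
        (1 - (MvPolynomial.eval₂ (Int.castRingHom (ZMod p)) a G) ^ (p - 1)) := by
    rw [Finset.card_filter, Nat.cast_sum]
    refine Finset.sum_congr rfl fun a _ => ?_
    rw [one_sub_pow_zmod, one_sub_pow_zmod]
    split_ifs <;> simp_all
  rw [hcard]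
  have hexp : ∀ a : σ → ZMod p,
        (1 - (MvPolynomial.eval₂ (Int.castRingHom (ZMod p)) a F) ^ (p - 1)) *
        (1 - (MvPolynomial.eval₂ (Int.castRingHom (ZMod p)) a G) ^ (p - 1)) =
        1 - (MvPolynomial.eval₂ (Int.castRingHom (ZMod p)) a F) ^ (p - 1)
          - (MvPolynomial.eval₂ (Int.castRingHom (ZMod p)) a G) ^ (p - 1)
          + (MvPolynomial.eval₂ (Int.castRingHom (ZMod p)) a (F * G)) ^ (p - 1) := by
    intro a
    rw [MvPolynomial.eval₂_mul, mul_pow]
    ring
  rw [Finset.sum_congr rfl (fun a _ => hexp a), Finset.sum_add_distrib, Finset.sum_sub_distrib,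
    Finset.sum_sub_distrib, sum_pow_eq_zero p F hF, sum_pow_eq_zero p G hG,
    sum_pow_eq_topCoeff p (F * G) hFG]
  have : (∑ _a : σ → ZMod p, (1 : ZMod p)) = 0 := by
    simp [ZMod.card, hσ.ne']
  rw [this]
  ring

end MP06b
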