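import Pool.Agent.Lib.MP_06b34c_co.GDefs

/-!
# MP_06b34c: the matrix tree theorem

`kirchhoff H a = (∏ a e) * det (grounded Laplacian with conductances 1 / a e)`.
-/

set_option autoImplicit false

namespace MP06b.BS

open Finset

/-! ### Cauchy-Binet -/

section cauchyBinet
variable {M E R : Type*} [Fintype M] [DecidableEq M] [Fintype E] [DecidableEq E] [CommRing R]

omit [DecidableEq E] in
theorem det_mul_expand (A : M → E → R) (C : E → M → R) :
    (Matrix.of fun i j : M => ∑ e, A i e * C e j).det =
      ∑ f : M → E, (∏ i, A i (f i)) * (Matrix.of fun i j : M => C (f i) j).det := by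
  have h := (Matrix.detRowAlternating (n := M) (R := R)).toMultilinearMap.map_sum
    (fun (i : M) (e : E) => A i e • C e)
  have h1 : (fun i : M => ∑ e : E, A i e • C e) = (fun i j : M => ∑ e, A i e * C e j) := by
    funext i j
    simp [Finset.sum_apply]
  have h2 : ∀ f : M → E, (Matrix.detRowAlternating (n := M) (R := R)).toMultilinearMap
      (fun i => A i (f i) • C (f i)) =
      (∏ i, A i (f i)) * (Matrix.of fun i j : M => C (f i) j).det := by
    intro f
    rw [MultilinearMap.map_smul_univ, smul_eq_mul]
    rfl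
  rw [h1] at h
  simp only [h2] at h
  exact h

/-- the maps with a given image are the compositions of a bijection with the permutations -/
theorem sum_image_eq {A : Type*} [AddCommMonoid A] (S : Finset E) (ψ : M ≃ {e // e ∈ S})
    (G : (M → E) → A) :
    ∑ f ∈ univ.filter (fun f : M → E => univ.image f = S), G f =
      ∑ σ : Equiv.Perm M, G (fun i => (ψ (σ i) : E)) := by
  symm
  refine Finset.sum_bij (fun σ _ => fun i => (ψ (σ i) : E)) ?_ ?_ ?_ ?_
  · intro σ _
    rw [mem_filter]
    refine ⟨mem_univ _, ?_⟩
    ext e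
    simp only [mem_image, mem_univ, true_and]
    constructor
    · rintro ⟨i, rfl⟩
      exact (ψ (σ i)).2
    · intro he
      exact ⟨σ.symm (ψ.symm ⟨e, he⟩), by simp⟩
  · intro σ _ τ _ h
    ext i
    have h2 : ψ (σ i) = ψ (τ i) := Subtype.ext (congrFun h i)
    exact ψ.injective h2
  · intro f hf
    rw [mem_filter] at hf
    have hmem : ∀ i, f i ∈ S := by
      intro i
      rw [← hf.2]
      exact mem_image_of_mem _ (mem_univ _)
    have hinj : Function.Injective f := by
      have h3 : (univ.image f).card = (univ : Finset M).card := by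
        rw [hf.2, card_univ, Fintype.card_congr ψ, Fintype.card_coe]
      rw [Finset.card_image_iff] at h3
      intro i j hij
      exact h3 (by simp) (by simp) hij
    have hbij : Function.Bijective fun i => ψ.symm ⟨f i, hmem i⟩ := by
      rw [Fintype.bijective_iff_injective_and_card]
      refine ⟨?_, rfl⟩
      intro i j hij
      have := ψ.symm.injective hij
      exact hinj (congrArg Subtype.val this)
    refine ⟨Equiv.ofBijective _ hbij, mem_univ _, ?_⟩
    funext i
    simp
  · intro σ _
    rfl

/-- **Cauchy-Binet** for `B D Bᵀ` with `D` diagonal -/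
theorem cauchy_binet (B : E → M → R) (w : E → R) (θ : Finset E → R)
    (hθ : ∀ (S : Finset E) (ψ : M ≃ {e // e ∈ S}),
      θ S = (Matrix.of fun i j : M => B (ψ i) j).det ^ 2)
    (hθ0 : ∀ S : Finset E, S.card ≠ Fintype.card M → θ S = 0) :
    (Matrix.of fun i j : M => ∑ e, B e i * w e * B e j).det =
      ∑ S : Finset E, θ S * ∏ e ∈ S, w e := by
  rw [det_mul_expand (fun i e => B e i * w e) B,
    ← Finset.sum_fiberwise univ (fun f : M → E => univ.image f)]
  refine sum_congr rfl fun S _ => ?_
  by_cases hS : S.card = Fintype.card M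
  · have hψ : Nonempty (M ≃ {e // e ∈ S}) := by
      rw [← Fintype.card_eq, Fintype.card_coe, hS]
    obtain ⟨ψ⟩ := hψ
    rw [sum_image_eq S ψ, hθ S ψ]
    set N : Matrix M M R := Matrix.of fun i j : M => B (ψ i) j with hN
    have h1 : ∀ σ : Equiv.Perm M,
        (∏ i, (B (ψ (σ i)) i * w (ψ (σ i)))) *
          (Matrix.of fun i j : M => B (ψ (σ i)) j).det =
        (((Equiv.Perm.sign σ : ℤ) : R) * ∏ i, N (σ i) i) * (N.det * ∏ e ∈ S, w e) := by
      intro σ
      have e1 : (Matrix.of fun i j : M => B (ψ (σ i)) j).det =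
          ((Equiv.Perm.sign σ : ℤ) : R) * N.det := by
        rw [← Matrix.det_permute]
        rfl
      have e2 : ∏ i, w (ψ (σ i)) = ∏ e ∈ S, w e := by
        rw [← Finset.prod_coe_sort S w]
        exact Equiv.prod_comp (σ.trans ψ) (fun e : {e // e ∈ S} => w e)
      rw [prod_mul_distrib, e1, e2]
      have e3 : ∏ i, B (ψ (σ i)) i = ∏ i, N (σ i) i := rfl
      rw [e3]
      ring
    rw [sum_congr rfl fun σ _ => h1 σ, ← Finset.sum_mul, ← Matrix.det_apply']
    ring
  · rw [hθ0 S hS, zero_mul]
    refine sum_eq_zero fun f hf => ?_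
    rw [mem_filter] at hf
    have hinj : ¬ Function.Injective f := by
      intro hinj
      apply hS
      rw [← hf.2, card_image_of_injective _ hinj, card_univ]
    rw [Function.Injective] at hinj
    push Not at hinj
    obtain ⟨i, j, hij, hne⟩ := hinj
    rw [Matrix.det_zero_of_row_eq hne, mul_zero]
    funext k
    simp [hij]

end cauchyBinet

/-! ### incidence matrix -/

section inc
variable {W : Type*} [DecidableEq W]

omit [DecidableEq W] in
/-- the two ends of an edge, in some order -/
noncomputable def ori {H : SimpleGraph W} (e : H.edgeSet) : W × W := Quot.out (e : Sym2 W)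

omit [DecidableEq W] in
theorem ori_eq {H : SimpleGraph W} (e : H.edgeSet) : s((ori e).1, (ori e).2) = (e : Sym2 W) :=
  Quot.out_eq (e : Sym2 W)

omit [DecidableEq W] in
theorem ori_ne {H : SimpleGraph W} (e : H.edgeSet) : (ori e).1 ≠ (ori e).2 := by
  have h : s((ori e).1, (ori e).2) ∈ H.edgeSet := by
    rw [ori_eq]
    exact e.2
  exact H.ne_of_adj (H.mem_edgeSet.1 h)

/-- the signed incidence matrix -/
noncomputable def bm (R : Type*) [CommRing R] {H : SimpleGraph W} (r : W) (e : H.edgeSet)
    (x : {x // x ≠ r}) : R :=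
  (if (x : W) = (ori e).1 then 1 else 0) - (if (x : W) = (ori e).2 then 1 else 0)

/-- conductances from resistances -/
noncomputable def condOf {H : SimpleGraph W} {F : Type*} [Field F] (a : H.edgeSet → F)
    (x y : W) : F :=
  open Classical in if h : H.Adj x y then (a ⟨s(x, y), h⟩)⁻¹ else 0

/-- the grounded Laplacian -/
def lap {F : Type*} [Field F] [Fintype W] (c : W → W → F) (r : W) :
    Matrix {x // x ≠ r} {x // x ≠ r} F :=
  Matrix.of fun x y => if x = y then ∑ z, c x z else - c x y

end inc

section
variable {W : Type*} [Fintype W] [DecidableEq W]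

open scoped Classical in
theorem condOf_eq {H : SimpleGraph W} {F : Type*} [Field F] (a : H.edgeSet → F) (x y : W) :
    condOf a x y = ∑ e : H.edgeSet, if (e : Sym2 W) = s(x, y) then (a e)⁻¹ else 0 := by
  unfold condOf
  split_ifs with h
  · rw [Finset.sum_eq_single (⟨s(x, y), h⟩ : H.edgeSet)]
    · simp
    · intro e _ he
      rw [if_neg]
      intro h'
      exact he (Subtype.ext h')
    · intro h'
      exact absurd (mem_univ _) h'
  · symm
    refine sum_eq_zero fun e _ => ?_
    rw [if_neg]
    intro h'
    apply h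
    rw [← SimpleGraph.mem_edgeSet, ← h']
    exact e.2

open scoped Classical in
theorem lap_eq {H : SimpleGraph W} {F : Type*} [Field F] (a : H.edgeSet → F) (r : W) :
    lap (condOf a) r = Matrix.of fun x y : {x // x ≠ r} =>
      ∑ e : H.edgeSet, bm F r e x * (a e)⁻¹ * bm F r e y := by
  ext x y
  unfold lap
  simp only [Matrix.of_apply]
  by_cases hxy : x = y
  · subst hxy
    rw [if_pos rfl]
    simp only [condOf_eq]
    rw [Finset.sum_comm]
    refine sum_congr rfl fun e _ => ?_
    have h1 := ori_eq e
    have h2 := ori_ne e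
    unfold bm
    by_cases hx1 : (x : W) = (ori e).1
    · have hx2 : (x : W) ≠ (ori e).2 := by rw [hx1]; exact h2
      rw [if_pos hx1, if_neg hx2, sub_zero, one_mul, mul_one]
      rw [Finset.sum_eq_single (ori e).2]
      · rw [if_pos]
        rw [← h1, hx1]
      · intro z _ hz
        rw [if_neg]
        intro h
        rw [← h1, hx1] at h
        exact hz (Sym2.congr_right.1 h).symm
      · intro h
        exact absurd (mem_univ _) h
    · by_cases hx2 : (x : W) = (ori e).2
      · rw [if_neg hx1, if_pos hx2]
        rw [Finset.sum_eq_single (ori e).1]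
        · rw [if_pos]
          · ring
          · rw [← h1, hx2, Sym2.eq_swap]
        · intro z _ hz
          rw [if_neg]
          intro h
          rw [← h1, hx2, Sym2.eq_swap] at h
          exact hz (Sym2.congr_right.1 h).symm
        · intro h
          exact absurd (mem_univ _) h
      · rw [if_neg hx1, if_neg hx2]
        simp only [sub_zero, zero_mul]
        refine sum_eq_zero fun z _ => ?_
        rw [if_neg]
        intro h
        rw [← h1] at h
        have : (x : W) ∈ s((ori e).1, (ori e).2) := by
          rw [h]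
          exact Sym2.mem_mk_left _ _
        rw [Sym2.mem_iff] at this
        rcases this with h' | h'
        · exact hx1 h'
        · exact hx2 h'
  · rw [if_neg hxy, condOf_eq, ← Finset.sum_neg_distrib]
    refine sum_congr rfl fun e _ => ?_
    have h1 := ori_eq e
    have h2 := ori_ne e
    have hxy' : (x : W) ≠ (y : W) := fun h => hxy (Subtype.ext h)
    unfold bm
    by_cases he : (e : Sym2 W) = s((x : W), (y : W))
    · rw [if_pos he]
      rw [he] at h1
      rcases Sym2.eq_iff.1 h1 with ⟨p1, p2⟩ | ⟨p1, p2⟩
      · rw [p1, p2]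
        simp only [if_true, hxy', hxy'.symm, if_false]
        ring
      · rw [p1, p2]
        simp only [if_true, hxy', hxy'.symm, if_false]
        ring
    · rw [if_neg he, neg_zero]
      by_cases hx1 : (x : W) = (ori e).1
      · have hx2 : (x : W) ≠ (ori e).2 := by rw [hx1]; exact h2
        have hy1 : (y : W) ≠ (ori e).1 := by rw [← hx1]; exact hxy'.symm
        have hy2 : (y : W) ≠ (ori e).2 := by
          intro h
          apply he
          rw [← h1, hx1, h]
        simp [hy1, hy2]
      · by_cases hx2 : (x : W) = (ori e).2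
        · have hy2 : (y : W) ≠ (ori e).2 := by rw [← hx2]; exact hxy'.symm
          have hy1 : (y : W) ≠ (ori e).1 := by
            intro h
            apply he
            rw [← h1, hx2, h, Sym2.eq_swap]
          simp [hy1, hy2]
        · simp [hx1, hx2]

/-! ### the squares of the minors -/

omit [Fintype W] [DecidableEq W] in
theorem connected_iff_cut' (G : SimpleGraph W) (r : W) :
    G.Connected ↔ ∀ Y : Set W, r ∉ Y → (∃ x, x ∈ Y) → ∃ x ∈ Y, ∃ y ∉ Y, G.Adj x y := by
  constructor
  · rintro h Y hr ⟨x, hx⟩
    obtain ⟨p⟩ := h.preconnected x r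
    obtain ⟨d, -, h1, h2⟩ := p.exists_boundary_dart Y hx hr
    exact ⟨d.fst, h1, d.snd, h2, d.adj⟩
  · intro h
    have key : ∀ x, G.Reachable r x := by
      by_contra hcon
      push Not at hcon
      obtain ⟨x₀, hx₀⟩ := hcon
      obtain ⟨x, hx, y, hy, hxy⟩ := h {x | ¬ G.Reachable r x} (by simp) ⟨x₀, hx₀⟩
      simp only [Set.mem_ofPred_eq, not_not] at hx hy
      exact hx (hy.trans hxy.symm.reachable)
    have : Nonempty W := ⟨r⟩
    exact ⟨fun x y => (key x).symm.trans (key y)⟩

/-- the graph with edge set `S` -/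
def gr {H : SimpleGraph W} (S : Finset H.edgeSet) : SimpleGraph W :=
  SimpleGraph.fromEdgeSet ((fun e : H.edgeSet => (e : Sym2 W)) '' (S : Set H.edgeSet))

omit [Fintype W] [DecidableEq W] in
theorem gr_adj {H : SimpleGraph W} (S : Finset H.edgeSet) (x y : W) :
    (gr S).Adj x y ↔ ∃ e ∈ S, (e : Sym2 W) = s(x, y) := by
  unfold gr
  rw [SimpleGraph.fromEdgeSet_adj]
  constructor
  · rintro ⟨⟨e, he, h⟩, -⟩
    exact ⟨e, he, h⟩
  · rintro ⟨e, he, h⟩
    refine ⟨⟨e, he, h⟩, ?_⟩
    rintro rfl
    have := e.2
    rw [h] at this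
    exact H.irrefl this

theorem gr_isTree {H : SimpleGraph W} (S : Finset H.edgeSet) (r : W) :
    (gr S).IsTree ↔ (gr S).Connected ∧ S.card = Fintype.card {x : W // x ≠ r} := by
  have hd : ∀ e : H.edgeSet, ¬ (e : Sym2 W).IsDiag := fun e => H.not_isDiag_of_mem_edgeSet e.2
  rw [SimpleGraph.isTree_iff_connected_and_card]
  have hedge : (gr S).edgeSet = (fun e : H.edgeSet => (e : Sym2 W)) '' (S : Set H.edgeSet) := by
    unfold gr
    rw [SimpleGraph.edgeSet_fromEdgeSet]
    ext e
    simp only [Set.mem_sdiff, and_iff_left_iff_imp]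
    rintro ⟨e', -, rfl⟩
    exact hd e'
  have hc1 : Nat.card (gr S).edgeSet = S.card := by
    rw [hedge]
    rw [Nat.card_image_of_injective Subtype.val_injective]
    simp
  have hc2 : Fintype.card {x : W // x ≠ r} + 1 = Fintype.card W := by
    have := Fintype.card_subtype_compl (fun x : W => x = r)
    simp only [Fintype.card_subtype_eq] at this
    have h2 : Fintype.card {x : W // x ≠ r} = Fintype.card W - 1 := this
    have h3 : 0 < Fintype.card W := Fintype.card_pos_iff.2 ⟨r⟩
    omega
  rw [hc1, Nat.card_eq_fintype_card]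
  refine and_congr Iff.rfl ?_
  omega

open scoped Classical in
theorem minor_sq_int {H : SimpleGraph W} (r : W) (S : Finset H.edgeSet)
    (ψ : {x : W // x ≠ r} ≃ {e // e ∈ S}) :
    (Matrix.of fun i j : {x : W // x ≠ r} => bm ℤ r (ψ i : H.edgeSet) j).det ^ 2 =
      if (gr S).IsTree then 1 else 0 := by
  set N : Matrix {x : W // x ≠ r} {x : W // x ≠ r} ℤ :=
    Matrix.of fun i j : {x : W // x ≠ r} => bm ℤ r (ψ i : H.edgeSet) j with hN
  have hcard : S.card = Fintype.card {x : W // x ≠ r} := by
    rw [Fintype.card_congr ψ, Fintype.card_coe]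
  rw [gr_isTree S r, and_iff_left hcard]
  split_ifs with hconn
  · -- unimodular
    have key : ∀ x : {x : W // x ≠ r}, ∃ v : {x : W // x ≠ r} → ℤ,
        Matrix.vecMul v N = Pi.single x 1 := by
      by_contra hcon
      push Not at hcon
      obtain ⟨x₀, hx₀⟩ := hcon
      obtain ⟨x, hx, y, hy, hxy⟩ := (connected_iff_cut' (gr S) r).1 hconn
        {x : W | ∃ h : x ≠ r, ∀ v : {x : W // x ≠ r} → ℤ,
          Matrix.vecMul v N ≠ Pi.single (⟨x, h⟩ : {x : W // x ≠ r}) 1}
        (by rintro ⟨h, -⟩; exact h rfl) ⟨x₀, x₀.2, hx₀⟩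
      obtain ⟨hxr, hx⟩ := hx
      rw [gr_adj] at hxy
      obtain ⟨e, he, hexy⟩ := hxy
      set i := ψ.symm ⟨e, he⟩ with hi
      have hψ : ψ i = ⟨e, he⟩ := by simp [hi]
      have hrow : ∀ j, N.row i j = bm ℤ r e j := by
        intro j
        rw [Matrix.row_apply, hN]
        simp only [Matrix.of_apply, hψ]
      -- the vector of y
      obtain ⟨u, hu⟩ : ∃ u : {x : W // x ≠ r} → ℤ, ∀ j : {x : W // x ≠ r},
          Matrix.vecMul u N j = if (j : W) = y then 1 else 0 := by
        by_cases hyr : y = r
        · refine ⟨0, fun j => ?_⟩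
          rw [Matrix.zero_vecMul, if_neg]
          · rfl
          · rw [hyr]
            exact j.2
        · have hy' : ∃ v : {x : W // x ≠ r} → ℤ,
              Matrix.vecMul v N = Pi.single (⟨y, hyr⟩ : {x : W // x ≠ r}) 1 := by
            by_contra hcon'
            push Not at hcon'
            exact hy ⟨hyr, hcon'⟩
          obtain ⟨u, hu⟩ := hy'
          refine ⟨u, fun j => ?_⟩
          rw [hu, Pi.single_apply]
          refine if_congr ?_ rfl rfl
          rw [Subtype.ext_iff]
      have h1 := ori_eq e
      rw [hexy] at h1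
      rcases Sym2.eq_iff.1 h1 with ⟨p1, p2⟩ | ⟨p1, p2⟩
      · apply hx (u + Pi.single i 1)
        rw [Matrix.add_vecMul]
        funext j
        rw [Pi.add_apply, hu, Matrix.single_one_vecMul, hrow]
        have hj : (j = ⟨x, hxr⟩) ↔ ((j : W) = x) := Subtype.ext_iff
        simp only [bm, p1, p2, Pi.single_apply, hj]
        ring
      · apply hx (u - Pi.single i 1)
        rw [Matrix.sub_vecMul]
        funext j
        rw [Pi.sub_apply, hu, Matrix.single_one_vecMul, hrow]
        have hj : (j = ⟨x, hxr⟩) ↔ ((j : W) = x) := Subtype.ext_iff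
        simp only [bm, p1, p2, Pi.single_apply, hj]
        ring
    choose v hv using key
    have hmul : (Matrix.of v) * N = 1 := by
      ext i j
      have := congrFun (hv i) j
      rw [Matrix.one_apply]
      rw [Pi.single_apply] at this
      have e1 : ((Matrix.of v) * N) i j = Matrix.vecMul (v i) N j := rfl
      rw [e1, this]
      simp only [eq_comm]
    have hdet : (Matrix.of v).det * N.det = 1 := by
      rw [← Matrix.det_mul, hmul, Matrix.det_one]
    have hu : IsUnit N.det := IsUnit.of_mul_eq_one_right _ hdet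
    rcases Int.isUnit_iff.1 hu with h | h <;> rw [h] <;> norm_num
  · -- a cut
    rw [connected_iff_cut' (gr S) r] at hconn
    push Not at hconn
    obtain ⟨Y, hr, ⟨x, hx⟩, hY⟩ := hconn
    have hdet : N.det = 0 := by
      rw [← Matrix.exists_mulVec_eq_zero_iff]
      refine ⟨fun j => if (j : W) ∈ Y then 1 else 0, ?_, ?_⟩
      · intro h
        have hxr : x ≠ r := by
          rintro rfl
          exact hr hx
        have := congrFun h ⟨x, hxr⟩
        simp [hx] at this
      · funext i
        rw [Matrix.mulVec, dotProduct]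
        have hs : ∀ z : W, (∑ j : {x : W // x ≠ r}, (if (j : W) = z then (1 : ℤ) else 0) *
            (if (j : W) ∈ Y then 1 else 0)) = if z ∈ Y then 1 else 0 := by
          intro z
          by_cases hz : z = r
          · rw [hz, if_neg hr]
            refine sum_eq_zero fun j _ => ?_
            rw [if_neg j.2, zero_mul]
          · rw [Finset.sum_eq_single (⟨z, hz⟩ : {x : W // x ≠ r})]
            · simp
            · intro j _ hj
              rw [if_neg, zero_mul]
              intro h
              exact hj (Subtype.ext h)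
            · intro h
              exact absurd (mem_univ _) h
        have : ∀ j : {x : W // x ≠ r}, N i j * (if (j : W) ∈ Y then 1 else 0) =
            (if (j : W) = (ori (ψ i : H.edgeSet)).1 then (1 : ℤ) else 0) *
              (if (j : W) ∈ Y then 1 else 0) -
            (if (j : W) = (ori (ψ i : H.edgeSet)).2 then (1 : ℤ) else 0) *
              (if (j : W) ∈ Y then 1 else 0) := by
          intro j
          rw [← sub_mul]
          rfl
        simp only [this]
        rw [Finset.sum_sub_distrib, hs, hs]
        have hadj : (gr S).Adj (ori (ψ i : H.edgeSet)).1 (ori (ψ i : H.edgeSet)).2 := by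
          rw [gr_adj]
          exact ⟨_, (ψ i).2, (ori_eq _).symm⟩
        by_cases h1 : (ori (ψ i : H.edgeSet)).1 ∈ Y
        · have h2 : (ori (ψ i : H.edgeSet)).2 ∈ Y := by
            by_contra h2
            exact hY _ h1 _ h2 hadj
          simp [h1, h2]
        · have h2 : (ori (ψ i : H.edgeSet)).2 ∉ Y := by
            intro h2
            exact hY _ h2 _ h1 hadj.symm
          simp [h1, h2]
    rw [hdet]
    norm_num

open scoped Classical in
theorem minor_sq {F : Type*} [CommRing F] {H : SimpleGraph W} (r : W) (S : Finset H.edgeSet)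
    (ψ : {x : W // x ≠ r} ≃ {e // e ∈ S}) :
    (Matrix.of fun i j : {x : W // x ≠ r} => bm F r (ψ i : H.edgeSet) j).det ^ 2 =
      if (gr S).IsTree then 1 else 0 := by
  have h := minor_sq_int r S ψ
  have h2 := congrArg (Int.castRingHom F) h
  rw [map_pow, RingHom.map_det] at h2
  have e1 : (Int.castRingHom F).mapMatrix
      (Matrix.of fun i j : {x : W // x ≠ r} => bm ℤ r (ψ i : H.edgeSet) j) =
      (Matrix.of fun i j : {x : W // x ≠ r} => bm F r (ψ i : H.edgeSet) j) := by
    ext i j
    simp only [RingHom.mapMatrix_apply, Matrix.map_apply, Matrix.of_apply, bm]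
    simp
  rw [e1] at h2
  rw [h2]
  split_ifs <;> simp

/-- **matrix tree theorem** -/
theorem kirchhoff_eq_det {F : Type*} [Field F] (H : SimpleGraph W) (a : H.edgeSet → F)
    (ha : ∀ e, a e ≠ 0) (r : W) :
    kirchhoff H a = open Classical in (∏ e, a e) * (lap (condOf a) r).det := by
  classical
  rw [lap_eq, cauchy_binet (fun e : H.edgeSet => bm F r e) (fun e => (a e)⁻¹)
    (fun S => if (gr S).IsTree then 1 else 0) (fun S ψ => (minor_sq r S ψ).symm)
    (fun S hS => if_neg fun h => hS ((gr_isTree S r).1 h).2)]
  rw [Finset.mul_sum]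
  unfold kirchhoff
  refine sum_congr rfl fun T _ => ?_
  have e1 : (∏ e, a e) * ∏ e ∈ T, (a e)⁻¹ = ∏ e ∈ Tᶜ, a e := by
    rw [← Finset.prod_mul_prod_compl T a, mul_right_comm, ← Finset.prod_mul_distrib]
    rw [Finset.prod_congr rfl (g := fun _ => (1 : F)) fun e _ => mul_inv_cancel₀ (ha e)]
    simp
  by_cases h : (gr T).IsTree
  · rw [if_pos h, one_mul, e1]
    have h' : (SimpleGraph.fromEdgeSet
      ((fun e : H.edgeSet => (e : Sym2 W)) '' (T : Set H.edgeSet))).IsTree := h
    rw [if_pos h']
    refine Finset.prod_congr ?_ fun _ _ => rfl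
    ext e
    simp only [Finset.mem_compl]
  · rw [if_neg h, zero_mul, mul_zero]
    have h' : ¬ (SimpleGraph.fromEdgeSet
      ((fun e : H.edgeSet => (e : Sym2 W)) '' (T : Set H.edgeSet))).IsTree := h
    rw [if_neg h']

end

end MP06b.BS
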