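import Pool.Agent.Lib.MP_06b34c_co.BS.MTree

/-!
# MP_06b34c: the star-mesh transformation for grounded Laplacians

`lapS c r S` is the Laplacian with conductances `c`, restricted to the rows and columns in
`S \ {r}` and completed by the identity matrix.
-/

set_option autoImplicit false

namespace MP06b.BS

open Finset

variable {V : Type*} [Fintype V] [DecidableEq V] {F : Type*} [Field F]

/-- the Laplacian restricted to `S \ {r}`, completed by the identity -/
def lapS (c : V → V → F) (r : V) (S : Finset V) : Matrix V V F :=
  Matrix.of fun x y => if x ∈ S ∧ y ∈ S ∧ x ≠ r ∧ y ≠ r then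
    (if x = y then ∑ z, c x z else - c x y) else if x = y then 1 else 0

/-- star-mesh transformation at `m` with `s` the sum of the conductances at `m` -/
def hideF (c : V → V → F) (m : V) (s : F) : V → V → F := fun a b =>
  if a = m ∨ b = m ∨ a = b then 0 else c a b + c a m * c m b / s

omit [DecidableEq V] in
/-- Schur complement for one pivot -/
theorem det_pivot {n : Type*} [Fintype n] [DecidableEq n] (A C : Matrix n n F) (m : n)
    (hm : A m m ≠ 0) (hC1 : ∀ j, C m j = if m = j then 1 else 0)
    (hC2 : ∀ i, i ≠ m → C i m = 0)
    (hC : ∀ i j, i ≠ m → j ≠ m → C i j = A i j - A i m * A m j / A m m) :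
    A.det = A m m * C.det := by
  set s := A m m with hs
  set B : Matrix n n F := Matrix.of fun i j =>
    if i = m then A m j else A i j - A i m * A m j / s with hB
  have e1 : A.det = B.det := by
    refine Matrix.det_eq_of_forall_row_eq_smul_add_const
      (fun i => if i = m then 0 else A i m / s) m (by simp) ?_
    intro i j
    simp only [hB, Matrix.of_apply, if_true]
    by_cases hi : i = m
    · subst hi
      simp
    · simp only [hi, if_false]
      field_simp
      ring
  set B' : Matrix n n F := Matrix.of fun i j => (if i = m then s else 1) * C i j with hB'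
  have e2 : B.det = B'.det := by
    rw [← Matrix.det_transpose B, ← Matrix.det_transpose B']
    refine Matrix.det_eq_of_forall_row_eq_smul_add_const
      (fun j => if j = m then 0 else A m j / s) m (by simp) ?_
    intro j i
    simp only [Matrix.transpose_apply, hB, hB', Matrix.of_apply]
    by_cases hi : i = m
    · subst hi
      by_cases hj : j = i
      · subst hj
        simp [hC1, hs]
      · have hj' : i ≠ j := fun h => hj h.symm
        simp only [if_true, hj, if_false, hC1, hj']
        field_simp
        ring
    · by_cases hj : j = m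
      · subst hj
        simp only [hi, if_false, hC2 i hi, if_true]
        rw [← hs]
        field_simp
        ring
      · simp only [hi, hj, if_false, hC i j hi hj, hC2 i hi]
        ring
  have e3 : B'.det = s * C.det := by
    rw [hB', Matrix.det_mul_column]
    congr 1
    rw [Finset.prod_ite_eq']
    simp
  rw [e1, e2, e3]

theorem sum_hideF (c : V → V → F) (m i : V) (him : i ≠ m) (hc : ∀ x, c x x = 0)
    (hs : ∑ z, c m z ≠ 0) :
    ∑ z, hideF c m (∑ z, c m z) i z = ∑ z, c i z - c i m * c m i / ∑ z, c m z := by
  set s := ∑ z, c m z with hs'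
  have h : ∀ z, hideF c m s i z = (c i z + c i m / s * c m z) - (if z = m then c i m else 0) -
      (if z = i then c i m * c m i / s else 0) := by
    intro z
    unfold hideF
    by_cases h1 : z = m
    · subst h1
      have h2 : z ≠ i := fun h => him h.symm
      simp [hc, h2]
    · by_cases h2 : z = i
      · subst h2
        simp [hc, h1]
        ring
      · have h2' : i ≠ z := fun h => h2 h.symm
        simp [him, h1, h2, h2']
        ring
  simp only [h]
  rw [Finset.sum_sub_distrib, Finset.sum_sub_distrib, Finset.sum_add_distrib, ← Finset.mul_sum,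
    ← hs']
  simp
  field_simp
  ring

/-- **star-mesh** -/
theorem lapS_star (c : V → V → F) (r m : V) (S : Finset V) (hm : m ∈ S) (hmr : m ≠ r)
    (hc : ∀ x, c x x = 0) (hs : ∑ z, c m z ≠ 0) :
    (lapS c r S).det =
      (∑ z, c m z) * (lapS (hideF c m (∑ z, c m z)) r (S.erase m)).det := by
  have hmm : lapS c r S m m = ∑ z, c m z := by
    simp [lapS, hm, hmr]
  rw [← hmm]
  refine det_pivot _ _ m (by rw [hmm]; exact hs) ?_ ?_ ?_
  · intro j
    simp [lapS]
  · intro i hi
    simp [lapS, hi]
  · intro i j hi hj
    rw [hmm]
    have hmj : m ≠ j := fun h => hj h.symm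
    by_cases h1 : i ∈ S ∧ i ≠ r
    · by_cases h2 : j ∈ S ∧ j ≠ r
      · by_cases hij : i = j
        · subst hij
          have e : lapS (hideF c m (∑ z, c m z)) r (S.erase m) i i =
              ∑ z, hideF c m (∑ z, c m z) i z := by
            simp [lapS, hi, h1]
          rw [e, sum_hideF c m i hi hc hs]
          simp [lapS, hi, h1, hm, hmr, hmj]
        · simp [lapS, hi, hj, h1, h2, hm, hmr, hmj, hij, hideF]
          ring
      · have h2' : ¬ (j ∈ S ∧ ¬ j = r) := h2
        by_cases hij : i = j
        · subst hij
          exact absurd h1 h2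
        · have a1 : lapS (hideF c m (∑ z, c m z)) r (S.erase m) i j = 0 := by
            unfold lapS
            rw [Matrix.of_apply, if_neg, if_neg hij]
            rintro ⟨-, b, -, d⟩
            exact h2 ⟨mem_of_mem_erase b, d⟩
          have a2 : lapS c r S i j = 0 := by
            unfold lapS
            rw [Matrix.of_apply, if_neg, if_neg hij]
            rintro ⟨-, b, -, d⟩
            exact h2 ⟨b, d⟩
          have a3 : lapS c r S m j = 0 := by
            unfold lapS
            rw [Matrix.of_apply, if_neg, if_neg hmj]
            rintro ⟨-, b, -, d⟩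
            exact h2 ⟨b, d⟩
          rw [a1, a2, a3]
          ring
    · have a1 : lapS (hideF c m (∑ z, c m z)) r (S.erase m) i j = if i = j then 1 else 0 := by
        unfold lapS
        rw [Matrix.of_apply, if_neg]
        rintro ⟨b, -, d, -⟩
        exact h1 ⟨mem_of_mem_erase b, d⟩
      have a2 : lapS c r S i j = if i = j then 1 else 0 := by
        unfold lapS
        rw [Matrix.of_apply, if_neg]
        rintro ⟨b, -, d, -⟩
        exact h1 ⟨b, d⟩
      have a3 : lapS c r S i m = 0 := by
        unfold lapS
        rw [Matrix.of_apply, if_neg, if_neg hi]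
        rintro ⟨b, -, d, -⟩
        exact h1 ⟨b, d⟩
      rw [a1, a2, a3]
      ring

/-- nothing left but the root -/
theorem lapS_root (c : V → V → F) (r : V) (S : Finset V) (hS : ∀ x ∈ S, x = r) :
    (lapS c r S).det = 1 := by
  have : lapS c r S = 1 := by
    ext x y
    unfold lapS
    rw [Matrix.of_apply, if_neg, Matrix.one_apply]
    rintro ⟨a, -, b, -⟩
    exact b (hS x a)
  rw [this, Matrix.det_one]

/-- the grounded Laplacian -/
theorem lap_eq_lapS (c : V → V → F) (r : V) : (lap c r).det = (lapS c r univ).det := by
  have h := Matrix.twoBlockTriangular_det' (lapS c r univ) (fun x => x ≠ r) (by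
    intro i hi j hj
    unfold lapS
    rw [Matrix.of_apply, if_neg, if_neg]
    · rintro rfl
      exact hj hi
    · rintro ⟨-, -, -, d⟩
      exact hj d)
  rw [h]
  have h2 : (lapS c r univ).toSquareBlockProp (fun x => ¬ x ≠ r) = 1 := by
    ext x y
    have hx : (x : V) = r := not_not.1 x.2
    simp only [Matrix.toSquareBlockProp_def, lapS, Matrix.of_apply, Matrix.one_apply]
    rw [if_neg (by rintro ⟨-, -, d, -⟩; exact d hx)]
    refine if_congr ?_ rfl rfl
    rw [Subtype.ext_iff]
  have h3 : (lapS c r univ).toSquareBlockProp (fun x => x ≠ r) = lap c r := by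
    ext x y
    simp only [Matrix.toSquareBlockProp_def, lapS, lap, Matrix.of_apply]
    rw [if_pos ⟨mem_univ _, mem_univ _, x.2, y.2⟩]
    refine if_congr ?_ rfl rfl
    rw [Subtype.ext_iff]
  rw [h2, h3, Matrix.det_one, mul_one]

end MP06b.BS
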