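import Pool.Agent.Lib.MP_06b34c_co.BS.Schur

/-!
# MP_06b34c: the last three pivots
-/

set_option autoImplicit false

namespace MP06b.BS

open Finset

variable {V : Type*} [Fintype V] [DecidableEq V]

omit [DecidableEq V] in
theorem sum_supp3 [DecidableEq V] {F : Type*} [AddCommMonoid F] (f : V → F) (x y z : V) (hxy : x ≠ y) (hxz : x ≠ z)
    (hyz : y ≠ z) (h : ∀ t, t ≠ x → t ≠ y → t ≠ z → f t = 0) : ∑ t, f t = f x + f y + f z := by
  rw [← Finset.sum_subset (Finset.subset_univ {x, y, z})]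
  · rw [Finset.sum_insert (by simp [hxy, hxz]), Finset.sum_insert (by simp [hyz]),
      Finset.sum_singleton, add_assoc]
  · intro t _ ht
    simp only [Finset.mem_insert, Finset.mem_singleton, not_or] at ht
    exact h t ht.1 ht.2.1 ht.2.2

/-- the three last pivots at a 3-valent root `w` -/
theorem lapS_three {F : Type*} [Field F] [LinearOrder F] [IsStrictOrderedRing F]
    (c : V → V → F) (u1 u2 u3 w : V) (h12 : u1 ≠ u2) (h13 : u1 ≠ u3) (h23 : u2 ≠ u3)
    (h1w : u1 ≠ w) (h2w : u2 ≠ w) (h3w : u3 ≠ w) (hc0 : ∀ x, c x x = 0)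
    (hsymm : ∀ x y, c x y = c y x)
    (hsupp : ∀ x, (x = u1 ∨ x = u2 ∨ x = u3) → ∀ z, z ≠ u1 → z ≠ u2 → z ≠ u3 → z ≠ w → c x z = 0)
    (a1 a2 a3 : F) (e1 : c u1 w = 1 / a1) (e2 : c u2 w = 1 / a2) (e3 : c u3 w = 1 / a3)
    (ha1 : 0 < a1) (ha2 : 0 < a2) (ha3 : 0 < a3) (n12 : 0 ≤ c u1 u2) (n13 : 0 ≤ c u1 u3)
    (n23 : 0 ≤ c u2 u3) :
    a1 * a2 * a3 * (lapS c w {u1, u2, u3, w}).det =
      1 + (c u1 u2 + c u1 u3) * a1 + (c u1 u2 + c u2 u3) * a2 + (c u1 u3 + c u2 u3) * a3 +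
        (c u1 u2 * c u1 u3 + c u1 u2 * c u2 u3 + c u1 u3 * c u2 u3) *
          (a1 * a2 + a1 * a3 + a2 * a3) := by
  -- first pivot
  have s1 : ∑ z, c u1 z = c u1 u2 + c u1 u3 + 1 / a1 := by
    rw [sum_supp3 (c u1) u2 u3 w h23 h2w h3w, e1]
    intro t ht2 ht3 htw
    by_cases ht1 : t = u1
    · rw [ht1, hc0]
    · exact hsupp u1 (Or.inl rfl) t ht1 ht2 ht3 htw
  have s1pos : 0 < c u1 u2 + c u1 u3 + 1 / a1 := by positivity
  have hd1 := lapS_star c w u1 {u1, u2, u3, w} (by simp) h1w hc0 (by rw [s1]; exact s1pos.ne')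
  rw [s1] at hd1
  have er1 : ({u1, u2, u3, w} : Finset V).erase u1 = {u2, u3, w} := by
    ext t
    simp only [mem_erase, mem_insert, mem_singleton]
    constructor
    · tauto
    · rintro (h | h | h)
      · exact ⟨by rw [h]; exact h12.symm, by tauto⟩
      · exact ⟨by rw [h]; exact h13.symm, by tauto⟩
      · exact ⟨by rw [h]; exact h1w.symm, by tauto⟩
  rw [er1] at hd1
  set σ1 := c u1 u2 + c u1 u3 + 1 / a1 with hσ1
  set c' := hideF c u1 σ1 with hc'
  have c'0 : ∀ x, c' x x = 0 := by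
    intro x
    simp [hc', hideF]
  have c'symm : ∀ x y, c' x y = c' y x := by
    intro x y
    simp only [hc', hideF]
    by_cases h : x = u1 ∨ y = u1 ∨ x = y
    · rw [if_pos h, if_pos (by rcases h with h | h | h <;> simp [h])]
    · have h' : ¬ (y = u1 ∨ x = u1 ∨ y = x) := by
        rintro (h1 | h1 | h1)
        · exact h (Or.inr (Or.inl h1))
        · exact h (Or.inl h1)
        · exact h (Or.inr (Or.inr h1.symm))
      rw [if_neg h, if_neg h', hsymm x y, hsymm x u1, hsymm u1 y]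
      ring
  have c'23 : c' u2 u3 = c u2 u3 + c u1 u2 * c u1 u3 / σ1 := by
    simp only [hc', hideF]
    rw [if_neg (by simp [h12.symm, h13.symm, h23]), hsymm u2 u1]
  have c'2w : c' u2 w = 1 / a2 + c u1 u2 * (1 / a1) / σ1 := by
    simp only [hc', hideF]
    rw [if_neg (by simp [h12.symm, h1w.symm, h2w]), hsymm u2 u1, e1, e2]
  have c'3w : c' u3 w = 1 / a3 + c u1 u3 * (1 / a1) / σ1 := by
    simp only [hc', hideF]
    rw [if_neg (by simp [h13.symm, h1w.symm, h3w]), hsymm u3 u1, e1, e3]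
  have c'supp : ∀ x, (x = u2 ∨ x = u3) → ∀ z, z ≠ u2 → z ≠ u3 → z ≠ w → c' x z = 0 := by
    intro x hx z hz2 hz3 hzw
    by_cases hz1 : z = u1
    · simp [hc', hideF, hz1]
    · have hxz : x ≠ z := by
        rintro rfl
        rcases hx with h | h
        · exact hz2 h
        · exact hz3 h
      have hx1 : x ≠ u1 := by
        rcases hx with h | h
        · rw [h]; exact h12.symm
        · rw [h]; exact h13.symm
      simp only [hc', hideF]
      rw [if_neg (by simp [hx1, hz1, hxz]), hsupp x (Or.inr hx) z hz1 hz2 hz3 hzw,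
        hsupp u1 (Or.inl rfl) z hz1 hz2 hz3 hzw]
      simp
  -- second pivot
  have s2 : ∑ z, c' u2 z = c' u2 u3 + c' u2 w := by
    rw [sum_supp3 (c' u2) u2 u3 w h23 h2w h3w, c'0, zero_add]
    intro t ht2 ht3 htw
    exact c'supp u2 (Or.inl rfl) t ht2 ht3 htw
  have p23 : 0 ≤ c' u2 u3 := by
    rw [c'23]
    positivity
  have p2w : 0 < c' u2 w := by
    rw [c'2w]
    positivity
  have s2pos : 0 < c' u2 u3 + c' u2 w := by linarith
  have hd2 := lapS_star c' w u2 {u2, u3, w} (by simp) h2w c'0 (by rw [s2]; exact s2pos.ne')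
  rw [s2] at hd2
  have er2 : ({u2, u3, w} : Finset V).erase u2 = {u3, w} := by
    ext t
    simp only [mem_erase, mem_insert, mem_singleton]
    constructor
    · tauto
    · rintro (h | h)
      · exact ⟨by rw [h]; exact h23.symm, by tauto⟩
      · exact ⟨by rw [h]; exact h2w.symm, by tauto⟩
  rw [er2] at hd2
  set σ2 := c' u2 u3 + c' u2 w with hσ2
  set c'' := hideF c' u2 σ2 with hc''
  have c''0 : ∀ x, c'' x x = 0 := by
    intro x
    simp [hc'', hideF]
  have c''3w : c'' u3 w = c' u3 w + c' u2 u3 * c' u2 w / σ2 := by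
    simp only [hc'', hideF]
    rw [if_neg (by simp [h23.symm, h2w.symm, h3w]), c'symm u3 u2]
  have c''supp : ∀ z, z ≠ w → c'' u3 z = 0 := by
    intro z hzw
    by_cases hz2 : z = u2
    · simp [hc'', hideF, hz2]
    · by_cases hz3 : z = u3
      · rw [hz3, c''0]
      · have hz3' : u3 ≠ z := fun h => hz3 h.symm
        simp only [hc'', hideF]
        rw [if_neg (by simp [h23.symm, hz2, hz3']), c'supp u3 (Or.inr rfl) z hz2 hz3 hzw,
          c'supp u2 (Or.inl rfl) z hz2 hz3 hzw]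
        simp
  -- third pivot
  have s3 : ∑ z, c'' u3 z = c'' u3 w := by
    rw [Finset.sum_eq_single w]
    · intro z _ hz
      exact c''supp z hz
    · intro h
      exact absurd (mem_univ _) h
  have p3w : 0 < c' u3 w := by
    rw [c'3w]
    positivity
  have s3pos : 0 < c'' u3 w := by
    rw [c''3w]
    positivity
  have hd3 := lapS_star c'' w u3 {u3, w} (by simp) h3w c''0 (by rw [s3]; exact s3pos.ne')
  rw [s3] at hd3
  have er3 : ({u3, w} : Finset V).erase u3 = {w} := by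
    ext t
    simp only [mem_erase, mem_insert, mem_singleton]
    constructor
    · tauto
    · rintro h
      exact ⟨by rw [h]; exact h3w.symm, by tauto⟩
  rw [er3, lapS_root _ w {w} (by simp), mul_one] at hd3
  rw [hd1, hd2, hd3, c''3w, hσ2, c'23, c'2w, c'3w]
  have hσ2' : c u2 u3 + c u1 u2 * c u1 u3 / σ1 + (1 / a2 + c u1 u2 * (1 / a1) / σ1) ≠ 0 := by
    rw [← c'23, ← c'2w]
    exact s2pos.ne'
  generalize c u1 u2 = x at *
  generalize c u1 u3 = y at *
  generalize c u2 u3 = z at *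
  have key : σ1 * a1 = (x + y) * a1 + 1 := by
    rw [hσ1]
    field_simp
  have h1 : (z + x * y / σ1 + (1 / a2 + x * (1 / a1) / σ1)) *
      (1 / a3 + y * (1 / a1) / σ1 + (z + x * y / σ1) * (1 / a2 + x * (1 / a1) / σ1) /
        (z + x * y / σ1 + (1 / a2 + x * (1 / a1) / σ1))) =
      (z + x * y / σ1 + (1 / a2 + x * (1 / a1) / σ1)) * (1 / a3 + y * (1 / a1) / σ1) +
      (z + x * y / σ1) * (1 / a2 + x * (1 / a1) / σ1) := by
    rw [mul_add, mul_div_cancel₀ _ hσ2']
  rw [h1]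
  have hσ : σ1 ≠ 0 := s1pos.ne'
  have h2 : a1 * a2 * a3 * (σ1 * ((z + x * y / σ1 + (1 / a2 + x * (1 / a1) / σ1)) *
      (1 / a3 + y * (1 / a1) / σ1) + (z + x * y / σ1) * (1 / a2 + x * (1 / a1) / σ1))) =
      ((z * (σ1 * a1) + x * y * a1) * a2 + (σ1 * a1) + x * a2) * ((σ1 * a1) + y * a3) / (σ1 * a1) +
      a3 * (z * (σ1 * a1) + x * y * a1) * ((σ1 * a1) + x * a2) / (σ1 * a1) := by
    field_simp
    ring
  rw [h2, key]
  have hk : (x + y) * a1 + 1 ≠ 0 := by positivity
  field_simp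
  ring

end MP06b.BS
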